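import Mathlib
import Pool.Agent.Helper51.Gurarii
import Pool.Agent.Helper51.GurariiDensity

open Cardinal

namespace Pool.Agent.Results.MP_40d550_an.WCGGurarii

universe u

/-- `g` is an `ε`-isometric embedding: `(1+ε)⁻¹ ‖y‖ ≤ ‖g y‖ ≤ (1+ε) ‖y‖` for all `y`. -/
def IsEpsIsometric {Y E : Type*} [NormedAddCommGroup Y] [NormedSpace ℝ Y]
    [NormedAddCommGroup E] [NormedSpace ℝ E] (ε : ℝ) (g : Y →ₗ[ℝ] E) : Prop :=
  ∀ y : Y, (1 + ε)⁻¹ * ‖y‖ ≤ ‖g y‖ ∧ ‖g y‖ ≤ (1 + ε) * ‖y‖

/-- `E` is a Gurarii space: for finite-dimensional spaces `X ⊆ Y`, every isometric embedding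
`f : X → E` and every `ε > 0`, there is an `ε`-isometric embedding `g : Y → E` extending `f`. -/
def IsGurarii (E : Type u) [NormedAddCommGroup E] [NormedSpace ℝ E] : Prop :=
  ∀ (Y : Type u) [NormedAddCommGroup Y] [NormedSpace ℝ Y] [FiniteDimensional ℝ Y]
    (X : Submodule ℝ Y) (f : X →ₗᵢ[ℝ] E) (ε : ℝ), 0 < ε →
    ∃ g : Y →ₗ[ℝ] E, IsEpsIsometric ε g ∧ ∀ x : X, g x = f x

/-- `E` is weakly compactly generated: it contains a weakly compact set with dense linear span. -/
def IsWCG (E : Type u) [NormedAddCommGroup E] [NormedSpace ℝ E] : Prop :=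
  ∃ K : Set E, IsCompact (toWeakSpace ℝ E '' K) ∧ Dense (Submodule.span ℝ K : Set E)

/-- `E` is weakly Lindelöf determined: for some set `Γ` there is a one-to-one linear operator from
`E*` into `ℝ^Γ`, continuous from the weak* topology to the product topology, all of whose values
have countable support. -/
def IsWLD (E : Type u) [NormedAddCommGroup E] [NormedSpace ℝ E] : Prop :=
  ∃ (Γ : Type u) (T : WeakDual ℝ E →ₗ[ℝ] (Γ → ℝ)), Continuous T ∧ Function.Injective T ∧
    ∀ φ, {γ | T φ γ ≠ 0}.Countable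

/-- The density character of `E` (least cardinality of a dense subset) is `κ`. -/
def HasDensity (E : Type u) [TopologicalSpace E] (κ : Cardinal.{u}) : Prop :=
  (∃ D : Set E, Dense D ∧ #D = κ) ∧ ∀ D : Set E, Dense D → κ ≤ #D

/-- For every uncountable cardinal `κ` there is a (non-separable) Gurarii space of density `κ`
which is weakly compactly generated, and weakly Lindelöf determined. -/
theorem result (κ : Cardinal.{u}) (hκ : ℵ₀ < κ) :
    ∃ (E : Type u) (_ : NormedAddCommGroup E) (_ : NormedSpace ℝ E),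
      CompleteSpace E ∧ ¬ TopologicalSpace.SeparableSpace E ∧ HasDensity E κ ∧
      IsGurarii E ∧ IsWCG E ∧ IsWLD E := by
  induction κ using Cardinal.inductionOn with | _ I
  have hunc : Uncountable I := Cardinal.aleph0_lt_mk_iff.mp hκ
  have hinf : Infinite I := inferInstance
  refine ⟨Pool.Agent.Helper51.Gur.EE I, inferInstance, inferInstance, ?_, ?_, ?_, ?_, ?_, ?_⟩
  · have hcl : IsClosed ((Pool.Agent.Helper51.Gur.EE I : Submodule ℝ _) :
        Set (Pool.Agent.Helper51.Gur.Amb I)) :=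
      Submodule.isClosed_topologicalClosure _
    exact hcl.completeSpace_coe
  · exact Pool.Agent.Helper51.Gur.not_separable_EE
  · exact Pool.Agent.Helper51.Gur.density_EE I
  · intro Y _ _ _ X f ε hε
    exact Pool.Agent.Helper51.Gur.gurarii_EE X f hε
  · exact Pool.Agent.Helper51.Gur.isWCG_EE
  · exact Pool.Agent.Helper51.Gur.isWLD_EE

end Pool.Agent.Results.MP_40d550_an.WCGGurarii
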